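import Mathlib

namespace Pool.Agent.Results.MP_6a2cdd_al.Refl

/-- relators of the right-angled Coxeter group of a graph -/
def rels {V : Type} (Γ : SimpleGraph V) : Set (FreeGroup V) :=
  {r | (∃ u, r = FreeGroup.of u * FreeGroup.of u) ∨ ∃ u v, Γ.Adj u v ∧
    r = FreeGroup.of u * FreeGroup.of v * (FreeGroup.of u)⁻¹ * (FreeGroup.of v)⁻¹}

/-- product of a nonempty family of distinct pairwise commuting reflections -/
def GenRefl {V : Type} (Γ : SimpleGraph V) (g : PresentedGroup (rels Γ)) : Prop :=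
  ∃ l : List (PresentedGroup (rels Γ)), l ≠ [] ∧ l.Nodup ∧
    (∀ r ∈ l, ∃ h u, r = h * PresentedGroup.of u * h⁻¹) ∧ l.Pairwise Commute ∧ g = l.prod

open PresentedGroup DihedralGroup

section
variable {V : Type} {Γ : SimpleGraph V}

lemma sq (u : V) : (of u : PresentedGroup (rels Γ)) * of u = 1 :=
  one_of_mem (rels := rels Γ) (Or.inl ⟨u, rfl⟩)

lemma cm {u v : V} (h : Γ.Adj u v) : Commute (of u : PresentedGroup (rels Γ)) (of v) := by
  have : (of u : PresentedGroup (rels Γ)) * of v * (of u)⁻¹ * (of v)⁻¹ = 1 :=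
    one_of_mem (rels := rels Γ) (Or.inr ⟨u, v, h, rfl⟩)
  rwa [mul_inv_eq_one, mul_inv_eq_iff_eq_mul] at this

def hom {G : Type} [Group G] (f : V → G) (h1 : ∀ u, f u * f u = 1)
    (h2 : ∀ u v, Γ.Adj u v → f u * f v = f v * f u) : PresentedGroup (rels Γ) →* G :=
  toGroup (f := f) (by
    rintro _ (⟨u, rfl⟩ | ⟨u, v, h, rfl⟩)
    · simpa using h1 u
    · simp [h2 u v h])

@[simp] lemma hom_of {G : Type} [Group G] (f : V → G) (h1) (h2) (u : V) :
    hom (Γ := Γ) f h1 h2 (of u) = f u := toGroup.of _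

def chi (w : V → ZMod 2) : PresentedGroup (rels Γ) →* Multiplicative (ZMod 2) :=
  hom (fun u => Multiplicative.ofAdd (w u)) (fun u => by generalize w u = x; revert x; decide)
    (fun _ _ _ => mul_comm _ _)

@[simp] lemma chi_of (w : V → ZMod 2) (u : V) :
    chi (Γ := Γ) w (of u) = Multiplicative.ofAdd (w u) := hom_of _ _ _ _

lemma ne1 (u : V) : (of u : PresentedGroup (rels Γ)) ≠ 1 := fun h => by
  simpa using congrArg (chi fun _ => 1) h

lemma inj {u v : V} (h : u ≠ v) : (of u : PresentedGroup (rels Γ)) ≠ of v := fun e => by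
  classical
  have := congrArg (chi fun x => if x = v then 1 else 0) e
  simp only [chi_of, if_neg h, if_true] at this
  revert this; decide
end

abbrev D := DihedralGroup 0 × DihedralGroup 0

def Sh (x : D) : Prop := (∃ m n, x = (r m, r n)) ∨ ∃ m n, x = (sr m, sr n)

lemma invol {x : D} (h : Sh x) (h1 : x * x = 1) (h2 : x ≠ 1) : ∃ m n, x = (sr m, sr n) := by
  rcases h with ⟨m, n, rfl⟩ | h
  · exfalso
    simp only [Prod.mk_mul_mk, r_mul_r, Prod.mk_eq_one, ← r_zero, r.injEq] at h1
    have a : (m : ℤ) + m = (0 : ℤ) := h1.1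
    have b : (n : ℤ) + n = (0 : ℤ) := h1.2
    have a' : m = (0 : ℤ) := add_self_eq_zero.mp a
    have b' : n = (0 : ℤ) := add_self_eq_zero.mp b
    exact h2 (by rw [a', b']; rfl)
  · exact h

theorem no {H : Type} [Group H] (ρ : H →* D) (hi : Function.Injective ρ) (hs : ∀ h, Sh (ρ h))
    (χ : ZMod 2 × ZMod 2 × ZMod 2 → (H →* Multiplicative (ZMod 2))) (hχ : Function.Injective χ)
    (W : Type) (Δ : SimpleGraph W) : IsEmpty (H ≃* PresentedGroup (rels Δ)) := by
  classical
  refine ⟨fun e => ?_⟩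
  have g : ∀ u : W, ∃ m n, ρ (e.symm (of u)) = (sr m, sr n) := fun u =>
    invol (hs _) (by rw [← map_mul, ← map_mul, sq, map_one, map_one])
      (by rw [Ne, map_eq_one_iff _ hi, map_eq_one_iff _ e.symm.injective]; exact ne1 u)
  choose m n g using g
  have ne : ∀ u v, ¬ Δ.Adj u v := by
    intro u v h
    have := congrArg (fun x => ρ (e.symm x)) (cm h).eq
    simp only [map_mul, g, Prod.mk_mul_mk, sr_mul_sr, Prod.mk.injEq, r.injEq] at this
    have a : (m v : ℤ) - m u = (m u : ℤ) - m v := this.1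
    have b : (n v : ℤ) - n u = (n u : ℤ) - n v := this.2
    have a' : (m u : ℤ) = m v := by
      have : ∀ x y : ℤ, y - x = x - y → x = y := fun x y h => by omega
      exact this _ _ a
    have b' : (n u : ℤ) = n v := by
      have : ∀ x y : ℤ, y - x = x - y → x = y := fun x y h => by omega
      exact this _ _ b
    exact inj h.ne (e.symm.injective (hi (by rw [g, g, a', b'])))
  have three : IsEmpty (Fin 3 ↪ W) := by
    refine ⟨fun i => ?_⟩
    let f : W → Equiv.Perm (Fin 4) := fun u => if u = i 0 then Equiv.swap 0 1 else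
      if u = i 1 then Equiv.swap 1 2 else if u = i 2 then Equiv.swap 2 3 else 1
    have h1 : (of (i 0) * of (i 1) * of (i 2) : PresentedGroup (rels Δ)) *
        (of (i 0) * of (i 1) * of (i 2)) = 1 := by
      apply e.symm.injective
      apply hi
      simp only [map_mul, g, map_one, Prod.mk_mul_mk, sr_mul_sr, r_mul_sr, sub_self, r_zero]
      rfl
    have := congrArg (hom (Γ := Δ) f (fun u => by simp only [f]; split_ifs <;> simp)
      (fun u v h => absurd h (ne u v))) h1
    simp only [map_mul, hom_of, map_one, f, i.injective.eq_iff] at this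
    revert this
    decide
  have fin : Finite W := by
    by_contra h
    rw [not_finite_iff_infinite] at h
    exact three.false (Fin.valEmbedding.trans (Infinite.natEmbedding W))
  letI := Fintype.ofFinite W
  have hc : Fintype.card W < 3 := by
    by_contra h
    exact three.false (Function.Embedding.nonempty_of_card_le (by simpa using h)).some
  obtain ⟨w, w', hw, h⟩ := Fintype.exists_ne_map_eq_of_card_lt
    (fun w => fun u : W => χ w (e.symm (of u))) (by
      simp only [Fintype.card_fun, Fintype.card_multiplicative, ZMod.card, Fintype.card_prod]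
      interval_cases Fintype.card W <;> simp)
  apply hw (hχ _)
  have : (χ w).comp e.symm.toMonoidHom = (χ w').comp e.symm.toMonoidHom := by
    ext u
    exact congrFun h u
  ext x
  simpa using DFunLike.congr_fun this (e x)

def Γ : SimpleGraph (Fin 5) := SimpleGraph.fromRel fun u v => u.val / 2 ≠ v.val / 2

instance : DecidableRel Γ.Adj := by unfold Γ; infer_instance

abbrev C := PresentedGroup (rels Γ)

def S : Set C := {of 0 * of 2, of 1 * of 2, of 0 * of 3}

def ρ : C →* D := hom ![(sr 0, 1), (sr 1, 1), (1, sr 0), (1, sr 1), 1]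
  (fun u => by fin_cases u <;> simp [Prod.ext_iff])
  (fun u v h => by fin_cases u <;> fin_cases v <;> first | exact absurd h (by decide) | simp)

lemma nf {x : C} (hx : x ∈ Subgroup.closure S) : ∃ m n : ℤ,
    x = (of 0 * of 1) ^ m * (of 2 * of 3) ^ n ∨
    x = (of 0 * of 1) ^ m * (of 2 * of 3) ^ n * (of 0 * of 2) := by
  have c02 := (cm (Γ := Γ) (u := 0) (v := 2) (by decide))
  have c03 := (cm (Γ := Γ) (u := 0) (v := 3) (by decide))
  have c12 := (cm (Γ := Γ) (u := 1) (v := 2) (by decide))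
  have c13 := (cm (Γ := Γ) (u := 1) (v := 3) (by decide))
  have iv : ∀ u : Fin 5, (of u : C)⁻¹ = of u := fun u => inv_eq_of_mul_eq_one_right (sq u)
  have q0 := sq (Γ := Γ) 0
  have q2 := sq (Γ := Γ) 2
  have i0 := iv 0
  have i1 := iv 1
  have i2 := iv 2
  have i3 := iv 3
  unfold S at hx
  generalize (of 0 : C) = a at *
  generalize (of 1 : C) = b at *
  generalize (of 2 : C) = c at *
  generalize (of 3 : C) = d at *
  have e1 : b * c = (a * b)⁻¹ * (a * c) := by group; rw [zpow_neg_one, i1]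
  have e2 : a * d = (c * d)⁻¹ * (a * c) := by
    rw [c02.eq, c03.eq]; group; rw [zpow_neg_one, i3]
  have st : Commute (a * b) (c * d) := (c02.mul_right c03).mul_left (c12.mul_right c13)
  have s1 : SemiconjBy (a * c) (a * b) (a * b)⁻¹ := by
    rw [SemiconjBy, ← e1, mul_assoc, ← mul_assoc c, ← c02.eq, mul_assoc, ← mul_assoc, q0, one_mul,
      c12.eq]
  have s2 : SemiconjBy (a * c) (c * d) (c * d)⁻¹ := by
    rw [SemiconjBy, ← e2, mul_assoc, ← mul_assoc c, q2, one_mul]
  have ss : (a * c) * (a * c) = 1 := by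
    rw [mul_assoc, ← mul_assoc c, ← c02.eq, mul_assoc, q2, mul_one, q0]
  rw [e1, e2] at hx
  generalize a * b = s at *
  generalize c * d = t at *
  generalize a * c = σ at *
  have k1 : ∀ m n m' n' : ℤ, s ^ m * t ^ n * (s ^ m' * t ^ n') = s ^ (m + m') * t ^ (n + n') := by
    intro m n m' n'
    rw [mul_assoc, ← mul_assoc (t ^ n), ← (st.zpow_zpow m' n).eq, zpow_add, zpow_add]
    group
  have k2 : ∀ m n : ℤ, σ * (s ^ m * t ^ n) = s ^ (-m) * t ^ (-n) * σ := by
    intro m n
    simpa using ((s1.zpow_right m).mul_right (s2.zpow_right n)).eq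
  induction hx using Subgroup.closure_induction'' with
  | mem x hx =>
    rcases hx with rfl | rfl | rfl
    · exact ⟨0, 0, Or.inr (by simp)⟩
    · exact ⟨-1, 0, Or.inr (by simp)⟩
    · exact ⟨0, -1, Or.inr (by simp)⟩
  | inv_mem x hx =>
    have : σ⁻¹ = σ := inv_eq_of_mul_eq_one_right ss
    rcases hx with rfl | rfl | rfl
    · exact ⟨0, 0, Or.inr (by simp [this])⟩
    · exact ⟨-1, 0, Or.inr (by simpa [this] using k2 1 0)⟩
    · exact ⟨0, -1, Or.inr (by simpa [this] using k2 0 1)⟩
  | one => exact ⟨0, 0, Or.inl (by simp)⟩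
  | mul x y _ _ hx hy =>
    obtain ⟨m, n, rfl | rfl⟩ := hx <;> obtain ⟨m', n', rfl | rfl⟩ := hy
    · exact ⟨_, _, Or.inl (k1 _ _ _ _)⟩
    · exact ⟨_, _, Or.inr (by rw [← mul_assoc, k1])⟩
    · exact ⟨_, _, Or.inr (by rw [mul_assoc _ σ, k2, ← mul_assoc, k1])⟩
    · exact ⟨_, _, Or.inl (by
        rw [mul_assoc _ σ, ← mul_assoc σ, k2, mul_assoc _ σ, ss, mul_one, k1])⟩

lemma rho (m n : ℤ) : ρ ((of 0 * of 1) ^ m * (of 2 * of 3) ^ n) = (r m, r n) := by
  simp [ρ, Prod.ext_iff]
  exact ⟨rfl, rfl⟩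

theorem result : ∃ (n : ℕ) (Γ : SimpleGraph (Fin n)) (S : Set (PresentedGroup (rels Γ))),
    ¬ Γ.CliqueFree 3 ∧ (∀ g ∈ S, GenRefl Γ g) ∧
    ∀ (W : Type) (Δ : SimpleGraph W),
      IsEmpty (Subgroup.closure S ≃* PresentedGroup (rels Δ)) := by
  have gr : ∀ u v, Γ.Adj u v → GenRefl Γ (of u * of v) := fun u v h =>
    ⟨[of u, of v], by simp, by simpa using inj h.ne, by
      simp only [List.mem_cons, List.not_mem_nil, or_false, forall_eq_or_imp, forall_eq]
      exact ⟨⟨1, u, by simp⟩, ⟨1, v, by simp⟩⟩, by simpa using cm h, by simp⟩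
  refine ⟨5, Γ, S, fun h => h {0, 2, 4} (by decide), ?_, no (ρ.comp (Subgroup.subtype _)) ?_ ?_
    (fun w => (chi ![w.1, w.2.1, 0, w.2.2, 0]).comp (Subgroup.subtype _)) ?_⟩
  · rintro g (rfl | rfl | rfl) <;> exact gr _ _ (by decide)
  · rw [injective_iff_map_eq_one]
    rintro ⟨x, hx⟩ h
    obtain ⟨m, n, rfl | rfl⟩ := nf hx
    · rw [MonoidHom.comp_apply, Subgroup.subtype_apply, rho, Prod.mk_eq_one, ← r_zero, r.injEq, r.injEq] at h
      have a : m = 0 := h.1
      have b : n = 0 := h.2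
      simp [a, b]
    · rw [MonoidHom.comp_apply, Subgroup.subtype_apply, map_mul, rho] at h
      simp [ρ, ← r_zero] at h
  · rintro ⟨x, hx⟩
    obtain ⟨m, n, rfl | rfl⟩ := nf hx
    · exact Or.inl ⟨m, n, rho m n⟩
    · refine Or.inr ⟨-m, -n, ?_⟩
      rw [MonoidHom.comp_apply, Subgroup.subtype_apply, map_mul, rho]
      simp [ρ]
      exact ⟨rfl, rfl⟩
  · rintro ⟨a, b, c⟩ ⟨a', b', c'⟩ h
    have h1 := DFunLike.congr_fun h ⟨of 0 * of 2, Subgroup.subset_closure (by simp [S])⟩
    have h2 := DFunLike.congr_fun h ⟨of 1 * of 2, Subgroup.subset_closure (by simp [S])⟩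
    have h3 := DFunLike.congr_fun h ⟨of 0 * of 3, Subgroup.subset_closure (by simp [S])⟩
    simp at h1 h2 h3
    simp_all

end Pool.Agent.Results.MP_6a2cdd_al.Refl
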